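import Pool.Agent.Lib.MP_e14b75_gt.Conv

/-!
# `L²`-homology of tidy pairs: bounds for the rank of `i_*`

The definitions are in `Lib/MP_e14b75_gt/Defs.lean` and `Lib/MP_e14b75_gt/Stmt.lean`.
-/

set_option autoImplicit false

namespace Pool.Agent.Results.MP_e14b75_gt.HalfRank

open Pool.Agent.Lib.MPe14b75

/-- Let `(M, F)` be a tidy pair, given by its cellular data `P`, `dim M = 2 k + 1`, `k = m + 1`, and `Z'` an
invariant set of cells.

1. The images of `L²H_k(M, ∂)` in `L²H_k(F, ∂)` and of `L²H_k(M, Z')` in `L²H_k(F, F ∩ Z')` are orthogonal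
   for the cup product form.
2. If `R` is a closed invariant subspace which contains the radical of the form on `L²H_k(F, ∂)`, the sum
   of the ranks of the two maps `i_*` is at most `dim_G L²H_k(F, F ∩ Z') + dim_G R`.
3. If the form is nondegenerate on `L²H_k(F, ∂)`, the sum of the two ranks is at most
   `dim_G L²H_k(F, F ∩ Z')`.
4. `rank_G(i_*) ≤ dim_G N` for every closed invariant subspace `N` such that the form is anisotropic on
   the orthogonal complement of `N` in `L²H_k(F, ∂)`.
5. If the form is anisotropic on `L²H_k(F, ∂)`, then `i_* = 0`.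
6. If `rank_G(i_*) = 0`, then `i_* = 0`. -/
theorem result {G X : Type} [Group G] [PartialOrder X] [MulAction G X] [OrdAct G X] [LocFin X] {m : ℕ}
    (hG : Geom G X) (P : Tidy G X m) (Z' : Set X) (hZ' : ∀ (g : G) (x : X), x ∈ Z' → g • x ∈ Z') :
    ImagesOrthogonal P Z' ∧
    (∀ R : Set (L2 (Ch X (m + 1))), ClosedInv G R → ContainsRadical P Z' R →
      rank P P.Z + rank P Z' ≤ vdim G (LF P Z') + vdim G R) ∧
    (Nondegenerate P Z' → rank P P.Z + rank P Z' ≤ vdim G (LF P Z')) ∧
    (∀ N : Set (L2 (Ch X (m + 1))), ClosedInv G N → AnisotropicOff P N →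
      rank P P.Z ≤ vdim G N) ∧
    (Anisotropic P → IStarZero P) ∧
    (rank P P.Z = 0 → IStarZero P) :=
  final2 hG P Z' hZ'

end Pool.Agent.Results.MP_e14b75_gt.HalfRank
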